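import Pool.Agent.Helper41.LF.GoalsA

/-!
# Project LF, packet GRW: growth of polynomials from a half interval
-/

namespace Pool.Agent.Helper50.LF

open Pool.Agent.Helper41.LF

theorem thm_GRW (hL : S_LAG) : S_GRW := by
  intro D
  have hD1 : (1 : ℝ) ≤ (D : ℝ) + 1 := by
    have : (0 : ℝ) ≤ (D : ℝ) := Nat.cast_nonneg D
    linarith
  refine ⟨((D : ℝ) + 1) * (2 * ((D : ℝ) + 1)) ^ D, ?_, ?_⟩
  · have h2 : (1 : ℝ) ≤ (2 * ((D : ℝ) + 1)) ^ D := one_le_pow₀ (by linarith)
    nlinarith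
  · intro f hf u v u' v' A huv hu' hv' hhalf hA y hy
    set s : ℝ := (v - u) / (2 * ((D : ℝ) + 1)) with hs
    have hspos : 0 < s := by
      rw [hs]
      exact div_pos (by linarith) (by linarith)
    have hsD : ((D : ℝ) + 1) * s = (v - u) / 2 := by
      rw [hs]
      field_simp
    have hin : ∀ i : Fin (D + 1), u' + (i : ℝ) * s ∈ Set.Icc u' v' := by
      intro i
      have hi0 : (0 : ℝ) ≤ ((i : ℕ) : ℝ) := Nat.cast_nonneg _
      have hi1 : ((i : ℕ) : ℝ) ≤ (D : ℝ) + 1 := by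
        have : (i : ℕ) ≤ D + 1 := i.2.le
        exact_mod_cast this
      constructor
      · have := mul_nonneg hi0 hspos.le
        linarith
      · have := mul_le_mul_of_nonneg_right hi1 hspos.le
        linarith
    have key := hL D f hf u v s A hspos (fun i => u' + ((i : ℕ) : ℝ) * s)
      (fun i => ⟨le_trans hu' (hin i).1, le_trans (hin i).2 hv'⟩) ?_
      (fun i => hA _ (hin i)) y hy
    · have e1 : (v - u) / s = 2 * ((D : ℝ) + 1) := by
        rw [hs]
        have h1 : v - u ≠ 0 := by linarith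
        have h2 : (2 * ((D : ℝ) + 1)) ≠ 0 := by linarith
        field_simp
      rw [e1] at key
      calc |f.eval y| ≤ ((D : ℝ) + 1) * A * (2 * ((D : ℝ) + 1)) ^ D := key
        _ = ((D : ℝ) + 1) * (2 * ((D : ℝ) + 1)) ^ D * A := by ring
    · intro i j hij
      have hne : (i : ℕ) ≠ (j : ℕ) := fun h => hij (Fin.ext h)
      have h1 : (1 : ℝ) ≤ |((i : ℕ) : ℝ) - ((j : ℕ) : ℝ)| := by
        rcases lt_or_gt_of_ne hne with h | h
        · have : ((i : ℕ) : ℝ) + 1 ≤ ((j : ℕ) : ℝ) := by exact_mod_cast h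
          rw [abs_sub_comm]
          exact le_trans (by linarith) (le_abs_self _)
        · have : ((j : ℕ) : ℝ) + 1 ≤ ((i : ℕ) : ℝ) := by exact_mod_cast h
          exact le_trans (by linarith) (le_abs_self _)
      have e2 : (u' + ((i : ℕ) : ℝ) * s) - (u' + ((j : ℕ) : ℝ) * s) =
          (((i : ℕ) : ℝ) - ((j : ℕ) : ℝ)) * s := by ring
      change s ≤ |(u' + ((i : ℕ) : ℝ) * s) - (u' + ((j : ℕ) : ℝ) * s)|
      rw [e2, abs_mul, abs_of_pos hspos]
      nlinarith

end Pool.Agent.Helper50.LF
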